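import Pool.Agent.Run7.h462.PA.Stm
import Pool.Agent.N792.ShpA
import Pool.Agent.N792.Rav

/-!
# Project PA, piece VGR: the densities of the sifted sets
-/

set_option autoImplicit false

namespace Run7.h957.PA

open Finset Filter Topology
open Pool.Agent.H373R2.T7 (pz Vz)
open Pool.Agent.TH204.WR (rho rho_le_deg)
open Run7.h462.PA (VG NF S_VGR)
open scoped Polynomial

lemma pzm {z p : ℕ} (h : p ∈ pz z) : p.Prime := (mem_filter.1 h).2

lemma pz_sub {w z : ℕ} (h : w ≤ z) : pz w ⊆ pz z := by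
  intro p hp
  unfold pz at hp ⊢
  rw [mem_filter, mem_Icc] at hp ⊢
  exact ⟨⟨hp.1.1, hp.1.2.trans h⟩, hp.2⟩

lemma fac_pos {p : ℕ} (hp : p.Prime) : 0 < 1 - 1 / (p : ℝ) := by
  have h1 : (2 : ℝ) ≤ p := by exact_mod_cast hp.two_le
  rw [sub_pos, div_lt_one (by linarith)]
  linarith

lemma fac_le_one (p : ℕ) : 1 - 1 / (p : ℝ) ≤ 1 := by
  have : (0 : ℝ) ≤ 1 / (p : ℝ) := by positivity
  linarith

lemma Vz_pos' (z : ℕ) : 0 < Vz z := by
  unfold Vz
  exact prod_pos fun p hp => fac_pos (pzm hp)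

lemma facG_pos {G : ℤ[X]} (hG : NF G) {p : ℕ} (hp : p.Prime) : 1 / (p : ℝ) ≤ 1 - (rho G 0 p : ℝ) / p := by
  have hp0 : (0 : ℝ) < p := by exact_mod_cast hp.pos
  have h1 : (rho G 0 p : ℝ) + 1 ≤ p := by exact_mod_cast hG p hp
  rw [div_le_iff₀ hp0, sub_mul, div_mul_cancel₀ _ hp0.ne']
  linarith

lemma facG_low {G : ℤ[X]} (hG : NF G) {p : ℕ} (hp : p.Prime) (hpg : 2 * G.natDegree + 2 ≤ p) :
    (1 - 1 / (p : ℝ)) ^ (2 * G.natDegree) ≤ 1 - (rho G 0 p : ℝ) / p := by
  have hp0 : (0 : ℝ) < p := by exact_mod_cast hp.pos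
  set g := G.natDegree with hg
  have h1 : (rho G 0 p : ℝ) ≤ g := by exact_mod_cast rho_le_deg G 0 p hp (hG p hp)
  have h2 : (rho G 0 p : ℝ) / p ≤ g / p := div_le_div_of_nonneg_right h1 hp0.le
  set x : ℝ := g / p with hx
  have hx0 : 0 ≤ x := by positivity
  have hx2 : x ≤ 1 / 2 := by
    rw [hx, div_le_iff₀ hp0]
    have : (2 : ℝ) * g + 2 ≤ p := by exact_mod_cast hpg
    linarith
  have h3 : (1 - 1 / (p : ℝ)) ^ (2 * g) ≤ Real.exp (-(2 * x)) := by
    have e1 : 1 - 1 / (p : ℝ) ≤ Real.exp (-(1 / (p : ℝ))) := by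
      have := Real.add_one_le_exp (-(1 / (p : ℝ)))
      linarith
    calc (1 - 1 / (p : ℝ)) ^ (2 * g) ≤ Real.exp (-(1 / (p : ℝ))) ^ (2 * g) :=
          pow_le_pow_left₀ (fac_pos hp).le e1 _
      _ = Real.exp (-(2 * x)) := by
          rw [← Real.exp_nat_mul]
          congr 1
          rw [hx]
          push_cast
          ring
  have h4 : Real.exp (-(2 * x)) ≤ 1 - x := by
    rw [Real.exp_neg]
    have e1 : 1 + 2 * x ≤ Real.exp (2 * x) := by
      have := Real.add_one_le_exp (2 * x)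
      linarith
    calc (Real.exp (2 * x))⁻¹ ≤ (1 + 2 * x)⁻¹ := inv_anti₀ (by linarith) e1
      _ ≤ 1 - x := by
          rw [inv_le_iff_one_le_mul₀ (by linarith)]
          nlinarith
  linarith

lemma facG_all {G : ℤ[X]} (hG : NF G) {p : ℕ} (hp : p.Prime) :
    (if p < 2 * G.natDegree + 2 then 1 / ((2 * G.natDegree + 2 : ℕ) : ℝ) else 1) *
      (1 - 1 / (p : ℝ)) ^ (2 * G.natDegree) ≤ 1 - (rho G 0 p : ℝ) / p := by
  have hp0 : (0 : ℝ) < p := by exact_mod_cast hp.pos
  have hle : (1 - 1 / (p : ℝ)) ^ (2 * G.natDegree) ≤ 1 := pow_le_one₀ (fac_pos hp).le (fac_le_one p)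
  have hge : 0 ≤ (1 - 1 / (p : ℝ)) ^ (2 * G.natDegree) := pow_nonneg (fac_pos hp).le _
  split_ifs with h
  · have h1 : 1 / ((2 * G.natDegree + 2 : ℕ) : ℝ) ≤ 1 / (p : ℝ) := by
      apply one_div_le_one_div_of_le hp0
      exact_mod_cast h.le
    have h2 : (0 : ℝ) ≤ 1 / ((2 * G.natDegree + 2 : ℕ) : ℝ) := by positivity
    have h3 := facG_pos hG hp
    nlinarith
  · rw [one_mul]
    exact facG_low hG hp (by omega)

lemma VGpos {G : ℤ[X]} (hG : NF G) (z : ℕ) : 0 < VG G z := by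
  unfold VG
  refine prod_pos fun p hp => ?_
  have hp0 : (0 : ℝ) < p := by exact_mod_cast (pzm hp).pos
  exact lt_of_lt_of_le (by positivity) (facG_pos hG (pzm hp))

lemma VG_le_one (G : ℤ[X]) (z : ℕ) : VG G z ≤ 1 := by
  unfold VG
  refine prod_le_one (fun p hp => ?_) (fun p hp => ?_)
  · have h2 : rho G 0 p ≤ p := (card_filter_le _ _).trans (card_range p).le
    have h1 : (rho G 0 p : ℝ) ≤ p := by exact_mod_cast h2
    have : (rho G 0 p : ℝ) / p ≤ 1 := div_le_one_of_le₀ h1 (by positivity)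
    linarith
  · have : (0 : ℝ) ≤ (rho G 0 p : ℝ) / p := by positivity
    linarith

lemma VG_quot {G : ℤ[X]} (hG : NF G) {w z : ℕ} (hwz : w ≤ z) :
    (1 / ((2 * G.natDegree + 2 : ℕ) : ℝ)) ^ (2 * G.natDegree + 2) * (Vz z / Vz w) ^ (2 * G.natDegree) * VG G w
      ≤ VG G z := by
  set P := 2 * G.natDegree + 2 with hP
  have hsub := pz_sub hwz
  have hPpos : (0 : ℝ) < (P : ℝ) := by rw [hP]; positivity
  have hP1 : 1 / (P : ℝ) ≤ 1 := by
    rw [div_le_one hPpos]
    rw [hP]; push_cast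
    have : (0 : ℝ) ≤ G.natDegree := by positivity
    linarith
  have e1 : VG G z = (∏ p ∈ pz z \ pz w, (1 - (rho G 0 p : ℝ) / p)) * VG G w := by
    unfold VG
    rw [prod_sdiff hsub]
  have e2 : Vz z / Vz w = ∏ p ∈ pz z \ pz w, (1 - 1 / (p : ℝ)) := by
    rw [div_eq_iff (Vz_pos' w).ne']
    unfold Vz
    rw [prod_sdiff hsub]
  have e3 : (1 / (P : ℝ)) ^ P ≤ ∏ p ∈ pz z \ pz w, (if p < P then 1 / (P : ℝ) else 1) := by
    rw [prod_ite, prod_const_one, mul_one, prod_const]
    apply pow_le_pow_of_le_one (by positivity) hP1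
    calc #((pz z \ pz w).filter (fun p => p < P)) ≤ #(range P) := by
          apply card_le_card
          intro p hp
          rw [mem_filter] at hp
          exact mem_range.2 hp.2
      _ = P := card_range P
  rw [e1]
  apply mul_le_mul_of_nonneg_right _ (VGpos hG w).le
  rw [e2]
  calc (1 / (P : ℝ)) ^ P * (∏ p ∈ pz z \ pz w, (1 - 1 / (p : ℝ))) ^ (2 * G.natDegree)
      ≤ (∏ p ∈ pz z \ pz w, (if p < P then 1 / (P : ℝ) else 1)) *
        (∏ p ∈ pz z \ pz w, (1 - 1 / (p : ℝ))) ^ (2 * G.natDegree) := by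
        apply mul_le_mul_of_nonneg_right e3
        apply pow_nonneg
        exact prod_nonneg fun p hp => (fac_pos (pzm (mem_sdiff.1 hp).1)).le
    _ = ∏ p ∈ pz z \ pz w, ((if p < P then 1 / (P : ℝ) else 1) * (1 - 1 / (p : ℝ)) ^ (2 * G.natDegree)) := by
        rw [prod_mul_distrib, prod_pow]
    _ ≤ ∏ p ∈ pz z \ pz w, (1 - (rho G 0 p : ℝ) / p) := by
        apply Finset.prod_le_prod
        · intro p hp
          apply mul_nonneg
          · split_ifs <;> positivity
          · exact pow_nonneg (fac_pos (pzm (mem_sdiff.1 hp).1)).le _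
        · intro p hp
          exact facG_all hG (pzm (mem_sdiff.1 hp).1)

/-- **VGR**: the densities -/
theorem vgr (G : ℤ[X]) (hG : NF G) : S_VGR G := by
  obtain ⟨c₁, hc₁, hV⟩ := Pool.Agent.N792.Shp.V1_lower
  set P := 2 * G.natDegree + 2 with hP
  have hPpos : (0 : ℝ) < (P : ℝ) := by rw [hP]; positivity
  have hP1 : 1 / (P : ℝ) ≤ 1 := by
    rw [div_le_one hPpos]
    rw [hP]; push_cast
    have : (0 : ℝ) ≤ G.natDegree := by positivity
    linarith
  have hm : 0 < min c₁ 1 := lt_min hc₁ one_pos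
  refine ⟨(1 / (P : ℝ)) ^ P * (min c₁ 1) ^ (2 * G.natDegree), by positivity, ?_, 2 * G.natDegree, ?_⟩
  · exact mul_le_one₀ (pow_le_one₀ (by positivity) hP1) (by positivity) (pow_le_one₀ hm.le (min_le_right _ _))
  · intro w z hw hwz
    have hlw : 0 < Real.log w := Real.log_pos (by exact_mod_cast (by omega : 1 < w))
    have hlz : 0 < Real.log z := Real.log_pos (by exact_mod_cast (by omega : 1 < z))
    have hlwz : Real.log w ≤ Real.log z := Real.log_le_log (by exact_mod_cast (by omega : 0 < w)) (by exact_mod_cast hwz)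
    have key : min c₁ 1 * (Real.log w / Real.log z) ≤ Vz z / Vz w := by
      rcases Nat.lt_or_ge z 3 with hz | hz
      · have : z = w := by omega
        subst this
        rw [div_self hlw.ne', div_self (Vz_pos' z).ne', mul_one]
        exact min_le_right _ _
      · have h1 : c₁ / Real.log z ≤ Vz z := hV z hz
        have h2 : Vz w ≤ 1 / Real.log w := Pool.Agent.N792.V1_le w hw
        rw [le_div_iff₀ (Vz_pos' w)]
        calc min c₁ 1 * (Real.log w / Real.log z) * Vz w ≤ c₁ * (Real.log w / Real.log z) * (1 / Real.log w) := by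
              apply mul_le_mul _ h2 (Vz_pos' w).le (by positivity)
              exact mul_le_mul_of_nonneg_right (min_le_left _ _) (by positivity)
          _ = c₁ / Real.log z := by field_simp
          _ ≤ Vz z := h1
    refine le_trans ?_ (VG_quot hG hwz)
    apply mul_le_mul_of_nonneg_right _ (VGpos hG w).le
    rw [mul_assoc, ← mul_pow]
    apply mul_le_mul_of_nonneg_left _ (by positivity)
    exact pow_le_pow_left₀ (by positivity) key _

end Run7.h957.PA
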